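import Pool.Agent.Helper77.HE.SheetP2
import Pool.Agent.Helper72.HX.ALGO
import Pool.Agent.Helper18.HN.SGNZ

/-!
Project HP2: row ALGP2, `ALGP` with costs `s` (from FLG, SQO2, LOCO2, LOCD, IND).
-/

set_option autoImplicit false

namespace Pool.Agent.Helper12.HP

open Polynomial Finset Pool.Agent.Helper71.JN Pool.Agent.Helper71.HN Pool.Agent.Helper77.HE
  Pool.Agent.Helper71.HX Pool.Agent.Helper71.HP Pool.Agent.Helper72.HX Pool.Agent.Helper77.HP2
open Pool.Agent.Helper70.JN (v_pow_le v_eq_of_lt)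

section
variable {F Ω : Type} [Field F] [Field Ω] [CharZero Ω] [Algebra F Ω] {I : Type} [Fintype I]
  {r : ℕ}

/-- the flag at one place -/
theorem flag_placeP2 (hSQO : ST_SQO2) (hLOCO : ST_LOCO2) (hLOCD : ST_LOCD) (D : SSF F Ω I r)
    (K : IntermediateField F Ω) (g : ℕ) (f : F[X]) (x y : Ω) (c : ℝ) (i : I) (hfm : f.Monic)
    (hfd : f.natDegree = 2 * g + 1) (hcu : y ^ 2 = aeval x f)
    (hnear : ((0 ≤ c ∨ 1 < D.nu i x) ∧ ∃ R ∈ K, D.nu i (x - R ^ 2) ≤ Real.exp c) ∨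
      ∃ G : F[X], G.Monic ∧ 1 ≤ G.natDegree ∧
        D.nu i (aeval x G) ≤ Real.exp (G.natDegree * min c (2 * c))) :
    ∃ C : ℝ, ∀ N : ℕ, ∃ (W : ℕ → Submodule K ((Fin (N + g + 1) ⊕ Fin N) → K)) (p q : ℝ),
      (∀ b, b < 2 * N + g + 1 → 2 * N + g + 1 ≤ Module.finrank K (W b) + b) ∧
      (∀ b, b < 2 * N + g + 1 → ∀ u ∈ W b, (∀ k, D.nu i (u k : Ω) ≤ 1) →
        D.nu i (∑ k, (u k : Ω) * eE x y (N + g + 1) N k) ≤ Real.exp (p + b * q)) ∧
      (2 * N + g + 1 : ℝ) * p + (2 * N + g + 1 : ℝ) * (2 * N + g) / 2 * q ≤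
        (2 * N + g + 1 : ℝ) * (2 * N + g) / 2 *
          (c - 1 / 2 * Real.log (max 1 (D.nu i x))) + C * (2 * N + g + 1) := by
  obtain ⟨v, hv⟩ : ∃ v, v = D.nu i := ⟨_, rfl⟩
  have hU : Ul v := hv ▸ ul_nu D i
  have hF : ∀ a : F, a ≠ 0 → v (algebraMap F Ω a) = 1 := hv ▸ D.F1 i
  rw [← hv] at hnear ⊢
  have hF' : ∀ a : F, v (algebraMap F Ω a) ≤ 1 := by
    intro a
    by_cases h0 : a = 0
    · rw [h0, map_zero, map_zero]
      exact zero_le_one
    · exact (hF a h0).le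
  rcases lt_or_ge 1 (v x) with hx | hx
  · -- a pole place
    obtain ⟨lam, hlam⟩ : ∃ lam, lam = 1 / 2 * Real.log (v x) := ⟨_, rfl⟩
    have hx0 : 0 < v x := by linarith
    have hxe : v x = Real.exp (2 * lam) := by
      rw [hlam]
      have h1 : 2 * (1 / 2 * Real.log (v x)) = Real.log (v x) := by ring
      rw [h1, Real.exp_log hx0]
    have hl : 0 < lam := by
      rw [hlam]
      have := Real.log_pos hx
      linarith
    have hmax : 1 / 2 * Real.log (max 1 (v x)) = lam := by rw [max_eq_right hx.le, hlam]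
    -- the choice of the square root
    have key : ∃ c' : ℝ, c' ≤ 2 * lam ∧ c' ≤ c ∧ (c' = 2 * lam ∨ (c' < 2 * lam ∧
        ∃ R ∈ K, v R = Real.exp lam ∧ v (x - R ^ 2) ≤ Real.exp c' ∧
          v (y - R ^ (2 * g + 1)) < Real.exp ((2 * g + 1) * lam))) := by
      have hzero : 2 * lam ≤ c → ∃ c' : ℝ, c' ≤ 2 * lam ∧ c' ≤ c ∧ (c' = 2 * lam ∨
          (c' < 2 * lam ∧ ∃ R ∈ K, v R = Real.exp lam ∧ v (x - R ^ 2) ≤ Real.exp c' ∧
          v (y - R ^ (2 * g + 1)) < Real.exp ((2 * g + 1) * lam))) :=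
        fun h => ⟨2 * lam, le_rfl, h, Or.inl rfl⟩
      rcases hnear with ⟨-, R, hR, h1⟩ | ⟨G, hGm, hGd, h1⟩
      · rcases lt_or_ge c (2 * lam) with h2 | h2
        · have h3 : v (x - R ^ 2) < v x := by
            rw [hxe]
            exact h1.trans_lt (Real.exp_lt_exp.2 h2)
          have h4 : v R = Real.exp lam := by
            have h5 := Pool.Agent.Helper18.HZ.sgz_R v hU.1 h3
            have h6 : Real.exp lam ^ 2 = v x := by
              rw [hxe, ← Real.exp_nat_mul]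
              norm_num
            rw [← h6] at h5
            exact (sq_eq_sq₀ (v.nonneg _) (Real.exp_pos _).le).1 h5
          have h7 := Pool.Agent.Helper18.HZ.sgz_sign v hU.1 hF hfm hfd hcu hx h3
            (Real.exp_pos ((2 * g + 1) * lam)) (by
              rw [hxe, ← Real.exp_nat_mul, ← Real.exp_nat_mul]
              congr 1
              push_cast
              ring)
          refine ⟨c, h2.le, le_rfl, Or.inr ⟨h2, ?_⟩⟩
          rcases h7 with h7 | h7
          · exact ⟨R, hR, h4, h1, h7⟩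
          · refine ⟨-R, K.neg_mem hR, by rw [v.map_neg, h4], ?_, h7⟩
            rw [neg_sq]
            exact h1
        · exact hzero h2
      · refine hzero ?_
        have hl2 : 0 < 2 * lam := by linarith
        rw [aeval_large v hU.1 hF x hl2 hxe G hGm.ne_zero, Real.exp_le_exp] at h1
        have h2 : (0 : ℝ) < G.natDegree := by exact_mod_cast hGd
        exact (le_of_mul_le_mul_left h1 h2).trans (min_le_left _ _)
    obtain ⟨c', hcl, hcc, hR⟩ := key
    refine ⟨g * lam, fun N => ?_⟩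
    obtain ⟨J, hJ⟩ := exists_nat_ge (max 2 (((2 * N + g + 1 : ℕ) : ℝ) * (3 * lam - c') / lam))
    have hJ2 : 2 ≤ J := by exact_mod_cast (le_max_left _ _).trans hJ
    have hJn : ((2 * N + g + 1 : ℕ) : ℝ) * (3 * lam - c') ≤ J * lam :=
      (div_le_iff₀ hl).1 ((le_max_right _ _).trans hJ)
    have hJc : 2 * lam - c' ≤ J * lam := by
      have h1 : (1 : ℝ) ≤ ((2 * N + g + 1 : ℕ) : ℝ) := by
        exact_mod_cast Nat.le_add_left 1 (2 * N + g)
      have h2 : (0 : ℝ) ≤ 3 * lam - c' := by linarith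
      have h3 := mul_le_mul_of_nonneg_right h1 h2
      linarith
    obtain ⟨φ, T₁, hT, hT1, hT2, hT3⟩ := hSQO F Ω v g J f lam x y hU hF hfm
      hfd hcu hl hxe hJ2
    have ht : ∃ t₀ ∈ K, v t₀ ≤ 1 ∧ v (T₁ - t₀) ≤ Real.exp (c' - 3 * lam) := by
      rcases hR with h1 | ⟨h1, R, hRK, h2, h3, h4⟩
      · refine ⟨0, K.zero_mem, by rw [map_zero]; exact zero_le_one, ?_⟩
        rw [sub_zero, hT, h1, Real.exp_le_exp]
        linarith
      · refine ⟨R⁻¹, K.inv_mem hRK, ?_, hT3 R c' hJc h1 h2 h3 h4⟩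
        rw [map_inv₀, h2, ← Real.exp_neg, Real.exp_le_one_iff]
        linarith
    obtain ⟨t₀, ht₀, ht1, ht2⟩ := ht
    obtain ⟨W, hW1, hW2⟩ := hLOCO F Ω K v g N J φ lam c' x y t₀ T₁ hU hF hl
      hxe hT hJn hT1 hT2 ht₀ ht1 hcl ht2
    refine ⟨W, 2 * (N + g) * lam, c' - 3 * lam, hW1, hW2, ?_⟩
    rw [hmax]
    have h2 : (0 : ℝ) ≤ (2 * N + g + 1 : ℝ) * (2 * N + g) / 2 := by positivity
    have h3 := mul_le_mul_of_nonneg_left hcc h2
    have h4 : (2 * N + g + 1 : ℝ) * (2 * (N + g) * lam) +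
        (2 * N + g + 1 : ℝ) * (2 * N + g) / 2 * (c' - 3 * lam) =
        (2 * N + g + 1 : ℝ) * (2 * N + g) / 2 * c' -
        (2 * N + g + 1 : ℝ) * (2 * N + g) / 2 * lam + g * lam * (2 * N + g + 1) := by ring
    rw [h4, mul_sub]
    linarith
  · -- the other places
    have hmax : 1 / 2 * Real.log (max 1 (v x)) = 0 := by
      rw [max_eq_left hx, Real.log_one, mul_zero]
    have hy : v y ≤ 1 := by
      have h1 := Pool.Agent.Helper18.HZ.sgz_y v hU.1 hF hfm hfd hcu
      rw [max_eq_left hx, one_pow] at h1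
      exact (sq_le_one_iff₀ (v.nonneg _)).1 h1
    rcases lt_or_ge c 0 with h0 | h0
    · rcases hnear with ⟨h1, -⟩ | ⟨G, hGm, hGd, h1⟩
      · rcases h1 with h1 | h1
        · exact absurd h1 (not_le.2 h0)
        · exact absurd h1 (not_lt.2 hx)
      · obtain ⟨k, hk⟩ : ∃ k : ℕ, k = G.natDegree := ⟨_, rfl⟩
        have hd : (G.map (algebraMap F K)).natDegree = k := by
          rw [hGm.natDegree_map, hk]
        have hmin : min c (2 * c) = 2 * c := min_eq_right (by linarith)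
        rw [hmin] at h1
        refine ⟨-(k * (2 * c)), fun N => ?_⟩
        obtain ⟨W, hW1, hW2⟩ := hLOCD F Ω K v g N (G.map (algebraMap F K)) (2 * c) x y hU hF hy hx
          (hGm.map _) (by rw [hd, hk]; exact hGd) (by
            intro j
            rw [coeff_map]
            exact hF' _) (by linarith) (by
            rw [hd, hk, aeval_map_algebraMap]
            exact h1)
        rw [hd] at hW2
        refine ⟨W, -(k * (2 * c)), c, hW1, ?_, ?_⟩
        · intro b hb u hu hu1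
          refine (hW2 b hb u hu hu1).trans (le_of_eq ?_)
          congr 1
          ring
        · rw [hmax, sub_zero]
          linarith
    · refine ⟨0, fun N => ?_⟩
      obtain ⟨W, hW1, hW2⟩ := hLOCD F Ω K v g N X 0 x y hU hF hy hx monic_X
        (by rw [natDegree_X]) (by
          intro j
          rw [coeff_X]
          split_ifs
          · simp
          · simp) le_rfl (by
          rw [aeval_X, mul_zero, Real.exp_zero]
          exact hx)
      refine ⟨W, 0, 0, hW1, ?_, ?_⟩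
      · intro b hb u hu hu1
        refine (hW2 b hb u hu hu1).trans (le_of_eq ?_)
        congr 1
        ring
      · rw [hmax]
        have h3 : (0 : ℝ) ≤ (2 * N + g + 1 : ℝ) * (2 * N + g) / 2 := by positivity
        have h4 := mul_nonneg h3 h0
        linarith

end

/-- (ALGP2) -/
theorem ALGP2 (hFLG : ST_FLG) (hSQO : ST_SQO2) (hLOCO : ST_LOCO2) (hLOCD : ST_LOCD)
    (hIND : ST_IND) : ST_ALGP2 := by
  intro F Ω _ _ _ _ I _ r D K hG g f m x y c hfm hfd hfs hm0 hmO hxO hyO hcu hnear hs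
  classical
  by_contra hx
  have hpl := fun i => flag_placeP2 hSQO hLOCO hLOCD D K g f x y (c i) i hfm hfd hcu (hnear i)
  choose C hC using hpl
  set lam : I → ℝ := fun i => 1 / 2 * Real.log (max 1 (D.nu i x)) with hlam
  obtain ⟨ψ, hψ⟩ : ∃ ψ : I → ℝ, ψ = c := ⟨_, rfl⟩
  rw [← hψ] at hs hC
  have hmp : ∀ i, 0 < D.nu i m := fun i => (D.nu i).pos hm0
  set μ : I → ℝ := fun i => Real.log (D.nu i m) with hμ
  have hμe : ∀ i, D.nu i m = Real.exp (μ i) := fun i => (Real.exp_log (hmp i)).symm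
  obtain ⟨ζ, hζ⟩ : ∃ ζ, ζ = ∑ i, lam i - ∑ i, ψ i - ∑ i, μ i := ⟨_, rfl⟩
  have hζ0 : 0 < ζ := by
    have h1 : ∑ i, lam i = 1 / 2 * ∑ i, Real.log (max 1 (D.nu i x)) := by
      rw [hlam, Finset.mul_sum]
    rw [hζ, h1]
    linarith
  obtain ⟨N, hN⟩ := exists_nat_gt (((g : ℝ) / 2 * ∑ i, μ i + ∑ i, C i) / ζ)
  rw [div_lt_iff₀ hζ0] at hN
  choose W p q hW1 hW2 hpq using fun i => hC i N
  obtain ⟨A, hA⟩ : ∃ A : ℕ, A = N + g := ⟨_, rfl⟩
  have hmA : m ^ A ≠ 0 := pow_ne_zero _ hm0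
  have hcard : Fintype.card (Fin (N + g + 1) ⊕ Fin N) = 2 * N + g + 1 := by
    rw [Fintype.card_sum, Fintype.card_fin, Fintype.card_fin]
    omega
  -- the flags
  have hflag : ∀ i, ∃ (ff : Fin (N + g + 1) ⊕ Fin N → Ω) (ρ : Fin (N + g + 1) ⊕ Fin N → ℕ),
      Function.Injective ρ ∧ (∀ k, ρ k < 2 * N + g + 1) ∧
      (∀ k, ff k - eE x y (N + g + 1) N k ∈
        Submodule.span K (eE x y (N + g + 1) N '' {l | ρ l < ρ k})) ∧
      ∀ k, D.nu i (ff k) ≤ Real.exp (p i + ρ k * q i) := by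
    intro i
    have h1 := hFLG F Ω K (Fin (N + g + 1) ⊕ Fin N) (D.nu i) (eE x y (N + g + 1) N) (W i)
      (fun b => Real.exp (p i + b * q i)) (by rw [hcard]; exact hW1 i)
      (by rw [hcard]; exact hW2 i)
    rw [hcard] at h1
    exact h1
  choose ff ρ hρ1 hρ2 hff hffv using hflag
  have hind0 := hIND F Ω K f g hfd hfs x y hcu hx (N + g + 1) N
  set E : Fin (N + g + 1) ⊕ Fin N → Ω := fun k => m ^ A * eE x y (N + g + 1) N k with hE
  have hind : LinearIndependent K E := by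
    have h1 := hind0.map' (LinearMap.mulLeft K (m ^ A)) (by
      rw [LinearMap.ker_eq_bot]
      exact fun a b hab => mul_left_cancel₀ hmA hab)
    exact h1
  have hEO : ∀ k, E k ∈ D.O := by
    rintro (n | j)
    · show m ^ A * x ^ (n : ℕ) ∈ D.O
      have e1 : m ^ A * x ^ (n : ℕ) = m ^ (A - n) * (m * x) ^ (n : ℕ) := by
        rw [mul_pow, ← mul_assoc, ← pow_add, Nat.sub_add_cancel]
        have := n.2
        omega
      rw [e1]
      exact D.O.mul_mem (pow_mem hmO _) (pow_mem hxO _)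
    · show m ^ A * (x ^ (j : ℕ) * y) ∈ D.O
      have e1 : m ^ A * (x ^ (j : ℕ) * y) =
          m ^ (A - (j + (g + 1))) * ((m * x) ^ (j : ℕ) * (m ^ (g + 1) * y)) := by
        have e2 : m ^ A = m ^ (A - (j + (g + 1))) * (m ^ (j : ℕ) * m ^ (g + 1)) := by
          rw [← pow_add, ← pow_add]
          congr 1
          have := j.2
          omega
        rw [e2, mul_pow]
        ring
      rw [e1]
      exact D.O.mul_mem (pow_mem hmO _) (D.O.mul_mem (pow_mem hxO _) hyO)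
  have key := hG _ E (fun i k => m ^ A * ff i k) (fun _ _ => 1) ρ hEO hind
    (fun _ _ => ⟨K.one_mem, one_ne_zero⟩) (by
      intro i k
      have h1 : m ^ A * ff i k - 1 * E k =
          LinearMap.mulLeft K (m ^ A) (ff i k - eE x y (N + g + 1) N k) := by
        rw [LinearMap.mulLeft_apply, hE]
        ring
      rw [h1]
      have h2 := Submodule.mem_map_of_mem (f := LinearMap.mulLeft K (m ^ A)) (hff i k)
      rw [Submodule.map_span, ← Set.image_comp] at h2
      exact h2)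
  -- the sizes
  have hprod : ∏ i, ∏ k, D.nu i (m ^ A * ff i k) / D.nu i 1 < 1 := by
    have h1 : ∀ i, ∏ k, D.nu i (m ^ A * ff i k) / D.nu i 1 ≤
        Real.exp ((2 * N + g + 1 : ℝ) * (A * μ i) + ((2 * N + g + 1 : ℝ) * p i +
          (2 * N + g + 1 : ℝ) * (2 * N + g) / 2 * q i)) := by
      intro i
      have h2 : ∀ k, D.nu i (m ^ A * ff i k) / D.nu i 1 ≤
          Real.exp (A * μ i + p i + (ρ i k : ℝ) * q i) := by
        intro k
        rw [(D.nu i).map_one, div_one, map_mul, map_pow, hμe i, ← Real.exp_nat_mul, add_assoc,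
          Real.exp_add]
        exact mul_le_mul_of_nonneg_left (hffv i k) (Real.exp_pos _).le
      refine (Finset.prod_le_prod (fun _ _ => div_nonneg ((D.nu i).nonneg _)
        ((D.nu i).nonneg _)) fun k _ => h2 k).trans (le_of_eq ?_)
      rw [← Real.exp_sum, Finset.sum_add_distrib, Finset.sum_const, ← Finset.sum_mul,
        sum_rho (2 * N + g + 1) hcard (ρ i) (hρ1 i) (hρ2 i), Finset.card_univ, hcard,
        nsmul_eq_mul]
      congr 1
      push_cast
      ring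
    refine lt_of_le_of_lt (Finset.prod_le_prod (fun i _ => Finset.prod_nonneg fun k _ =>
      div_nonneg ((D.nu i).nonneg _) ((D.nu i).nonneg _)) (fun i _ => h1 i)) ?_
    rw [← Real.exp_sum, Real.exp_lt_one_iff]
    have h3 : ∑ i, ((2 * N + g + 1 : ℝ) * (A * μ i) + ((2 * N + g + 1 : ℝ) * p i +
          (2 * N + g + 1 : ℝ) * (2 * N + g) / 2 * q i)) ≤
        ∑ i, ((2 * N + g + 1 : ℝ) * (A * μ i) + ((2 * N + g + 1 : ℝ) * (2 * N + g) / 2 *
          (ψ i - lam i) + C i * (2 * N + g + 1))) :=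
      Finset.sum_le_sum fun i _ => add_le_add le_rfl (hpq i)
    refine lt_of_le_of_lt h3 ?_
    rw [Finset.sum_add_distrib, Finset.sum_add_distrib, ← Finset.mul_sum, ← Finset.mul_sum,
      ← Finset.mul_sum, ← Finset.sum_mul, Finset.sum_sub_distrib]
    have hAr : ((A : ℕ) : ℝ) = N + g := by
      rw [hA]
      push_cast
      ring
    rw [hAr]
    obtain ⟨M0, hM0⟩ : ∃ M0, M0 = ∑ i, μ i := ⟨_, rfl⟩
    obtain ⟨L0, hL0⟩ : ∃ L0, L0 = ∑ i, lam i := ⟨_, rfl⟩
    obtain ⟨P0, hP0⟩ : ∃ P0, P0 = ∑ i, ψ i := ⟨_, rfl⟩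
    obtain ⟨C0, hC0⟩ : ∃ C0, C0 = ∑ i, C i := ⟨_, rfl⟩
    rw [← hM0, ← hC0] at hN
    rw [← hM0, ← hL0, ← hP0] at hζ
    rw [← hM0, ← hL0, ← hP0, ← hC0]
    have hn : (0 : ℝ) < 2 * N + g + 1 := by positivity
    have e1 : (2 * N + g + 1 : ℝ) * ((N + g) * M0) + ((2 * N + g + 1 : ℝ) * (2 * N + g) / 2 *
        (P0 - L0) + C0 * (2 * N + g + 1)) = (2 * N + g + 1 : ℝ) *
        ((g : ℝ) / 2 * M0 + C0 - N * ζ - g / 2 * ζ) := by
      rw [hζ]
      ring
    rw [e1]
    refine mul_neg_of_pos_of_neg hn ?_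
    have h4 : 0 ≤ (g : ℝ) / 2 * ζ := by positivity
    linarith
  exact absurd key (not_le.2 hprod)

end Pool.Agent.Helper12.HP
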